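import Mathlib
import Pool.Agent.W787.KG.Defs

/-!
Project KG (MP_e522c7_an): the product formula.
-/

set_option autoImplicit false
set_option linter.unusedSectionVars false

open MeasureTheory Set Metric Filter Topology Real

noncomputable section

namespace Pool.Agent.W369.KG.Pro

open Pool.Agent.W787.KG

lemma odd_int {g : E → ℝ} (h : ∀ z, g (-z) = - g z) : ∫ z, g z = 0 := by
  have h1 : ∫ z, g (-z) = ∫ z, g z := integral_neg_eq_self g volume
  simp_rw [h] at h1
  rw [integral_neg] at h1
  linarith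

/-- the four terms -/
def FA (f : E → ℝ) (x : E) (z : E × E) : ℝ :=
  Real.cos (inner ℝ z.1 x) * Real.cos (inner ℝ z.2 x) * (inner ℝ z.1 z.2 / ‖z.2‖ ^ 2) *
    (f z.1 * f z.2)

def FB (f : E → ℝ) (x : E) (z : E × E) : ℝ :=
  Real.sin (inner ℝ z.1 x) * Real.sin (inner ℝ z.2 x) * (inner ℝ z.1 z.2 / ‖z.2‖ ^ 2) *
    (f z.1 * f z.2)

def FC (f : E → ℝ) (x : E) (z : E × E) : ℝ :=
  (Real.cos (inner ℝ z.1 x) * f z.1) * (Real.cos (inner ℝ z.2 x) * f z.2)

def FD (f : E → ℝ) (x : E) (z : E × E) : ℝ :=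
  (Real.sin (inner ℝ z.1 x) * f z.1) * (Real.sin (inner ℝ z.2 x) * f z.2)

def Psi (f : E → ℝ) (x : E) (z : E × E) : ℝ :=
  Real.cos (inner ℝ (z.1 + z.2) x) * (inner ℝ (z.1 + z.2) z.2 / ‖z.2‖ ^ 2) * (f z.1 * f z.2)

lemma psi_eq (f : E → ℝ) (x : E) (z : E × E) (hz : z.2 ≠ 0) :
    Psi f x z = FA f x z - FB f x z + FC f x z - FD f x z := by
  unfold Psi FA FB FC FD
  have h1 : (inner ℝ (z.1 + z.2) x : ℝ) = inner ℝ z.1 x + inner ℝ z.2 x := inner_add_left _ _ _
  have h2 : (inner ℝ (z.1 + z.2) z.2 : ℝ) = inner ℝ z.1 z.2 + ‖z.2‖ ^ 2 := by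
    rw [inner_add_left, real_inner_self_eq_norm_sq]
  have h3 : ‖z.2‖ ^ 2 ≠ 0 := by
    have := norm_pos_iff.mpr hz
    positivity
  rw [h1, h2, Real.cos_add, add_div, div_self h3]
  ring

section

variable {f : E → ℝ} {K : ℝ} (hc : Continuous f)

include hc

lemma meas_q (φ ψ : ℝ → ℝ) (hφ : Continuous φ) (hψ : Continuous ψ) (x : E) :
    AEStronglyMeasurable (fun z : E × E => φ (inner ℝ z.1 x) * ψ (inner ℝ z.2 x) *
      (inner ℝ z.1 z.2 / ‖z.2‖ ^ 2) * (f z.1 * f z.2)) ((volume : Measure E).prod volume) := by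
  have h1 : Measurable (fun z : E × E => φ (inner ℝ z.1 x) * ψ (inner ℝ z.2 x)) := by
    apply Continuous.measurable
    fun_prop
  have h2 : Measurable (fun z : E × E => (inner ℝ z.1 z.2 : ℝ)) := by
    apply Continuous.measurable
    fun_prop
  have h3 : Measurable (fun z : E × E => ‖z.2‖ ^ 2) := by
    apply Continuous.measurable
    fun_prop
  have h4 : Measurable (fun z : E × E => f z.1 * f z.2) := by
    apply Continuous.measurable
    fun_prop
  exact ((h1.mul (h2.div h3)).mul h4).aestronglyMeasurable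

variable (hb : ∀ ξ, |f ξ| ≤ K * Wg 6 1 1 ξ) (h2 : S_WI) (h4 : S_WE)

include hb h2 h4

lemma K_nonneg : 0 ≤ K := by
  have h := (abs_nonneg _).trans (hb 0)
  have h1 := (h4.1 6 1 1 0 one_pos one_pos).1
  exact nonneg_of_mul_nonneg_left h h1

lemma int_M1 : Integrable (fun ζ : E => ‖ζ‖ * Wg 6 1 1 ζ) := by
  refine Integrable.mono' (h2 5 (by norm_num)).1 ?_ ?_
  · exact (continuous_norm.mul (h4.2.2.2.2 6)).aestronglyMeasurable
  · refine Filter.Eventually.of_forall fun ζ => ?_
    have h := h4.2.2.1 6 1 ζ (by norm_num)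
    rw [pow_one] at h
    rw [Real.norm_eq_abs, abs_of_nonneg (mul_nonneg (norm_nonneg _)
      (h4.1 6 1 1 ζ one_pos one_pos).1.le)]
    exact h

lemma int_quad (φ ψ : ℝ → ℝ) (hφ : Continuous φ) (hψ : Continuous ψ) (h1φ : ∀ t, |φ t| ≤ 1)
    (h1ψ : ∀ t, |ψ t| ≤ 1) (x : E) :
    Integrable (fun z : E × E => φ (inner ℝ z.1 x) * ψ (inner ℝ z.2 x) *
      (inner ℝ z.1 z.2 / ‖z.2‖ ^ 2) * (f z.1 * f z.2)) ((volume : Measure E).prod volume) := by
  have hK := K_nonneg hc hb h2 h4
  have hM := ((int_M1 hc hb h2 h4).mul_prod (h2 6 (by norm_num)).2).const_mul (K ^ 2)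
  refine Integrable.mono' hM (meas_q hc φ ψ hφ hψ x) ?_
  refine Filter.Eventually.of_forall fun z => ?_
  rw [Real.norm_eq_abs, abs_mul, abs_mul, abs_mul, abs_mul]
  have e1 : |(inner ℝ z.1 z.2 : ℝ) / ‖z.2‖ ^ 2| ≤ ‖z.1‖ * (1 / ‖z.2‖) := by
    rcases eq_or_ne z.2 0 with h | h
    · rw [h]
      simp
    · have hp := norm_pos_iff.mpr h
      rw [abs_div, abs_of_pos (show 0 < ‖z.2‖ ^ 2 by positivity), div_le_iff₀ (by positivity)]
      refine (abs_real_inner_le_norm z.1 z.2).trans (le_of_eq ?_)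
      field_simp
  have e2 : |φ (inner ℝ z.1 x)| * |ψ (inner ℝ z.2 x)| ≤ 1 * 1 :=
    mul_le_mul (h1φ _) (h1ψ _) (abs_nonneg _) (by norm_num)
  have w1 := (h4.1 6 1 1 z.1 one_pos one_pos).1.le
  have w2 := (h4.1 6 1 1 z.2 one_pos one_pos).1.le
  calc |φ (inner ℝ z.1 x)| * |ψ (inner ℝ z.2 x)| * |(inner ℝ z.1 z.2 : ℝ) / ‖z.2‖ ^ 2| *
        (|f z.1| * |f z.2|)
      ≤ (1 * 1) * (‖z.1‖ * (1 / ‖z.2‖)) * ((K * Wg 6 1 1 z.1) * (K * Wg 6 1 1 z.2)) := by
        gcongr
        · exact hb _
        · exact hb _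
    _ = K ^ 2 * (‖z.1‖ * Wg 6 1 1 z.1 * (1 / ‖z.2‖ * Wg 6 1 1 z.2)) := by ring

lemma int_lin (φ : ℝ → ℝ) (hφ : Continuous φ) (h1φ : ∀ t, |φ t| ≤ 1) (x : E) :
    Integrable (fun ζ : E => φ (inner ℝ ζ x) * f ζ) := by
  refine Integrable.mono' ((h2 6 (by norm_num)).1.const_mul K) ?_ ?_
  · apply Continuous.aestronglyMeasurable
    fun_prop
  · refine Filter.Eventually.of_forall fun ζ => ?_
    rw [Real.norm_eq_abs, abs_mul]
    calc |φ (inner ℝ ζ x)| * |f ζ| ≤ 1 * (K * Wg 6 1 1 ζ) := by
          gcongr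
          · exact h1φ _
          · exact hb _
      _ = K * Wg 6 1 1 ζ := one_mul _

lemma int_vec (x : E) :
    Integrable (fun η : E => (-(Real.sin (inner ℝ η x) * f η / ‖η‖ ^ 2)) • η) := by
  refine Integrable.mono' ((h2 6 (by norm_num)).2.const_mul K) ?_ ?_
  · have m1 : Measurable (fun η : E => Real.sin (inner ℝ η x) * f η) := by
      apply Continuous.measurable
      fun_prop
    have m2 : Measurable (fun η : E => ‖η‖ ^ 2) := by
      apply Continuous.measurable
      fun_prop
    exact ((m1.div m2).neg.smul measurable_id).aestronglyMeasurable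
  · refine Filter.Eventually.of_forall fun η => ?_
    rw [norm_smul, norm_neg, Real.norm_eq_abs, abs_div, abs_mul,
      abs_of_nonneg (show 0 ≤ ‖η‖ ^ 2 by positivity)]
    have e1 : |Real.sin (inner ℝ η x)| * |f η| ≤ 1 * (K * Wg 6 1 1 η) := by
      gcongr
      · exact Real.abs_sin_le_one _
      · exact hb _
    rcases eq_or_ne η 0 with h | h
    · rw [h]
      simp
    · have hp := norm_pos_iff.mpr h
      calc |Real.sin (inner ℝ η x)| * |f η| / ‖η‖ ^ 2 * ‖η‖
          ≤ 1 * (K * Wg 6 1 1 η) / ‖η‖ ^ 2 * ‖η‖ := by gcongr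
        _ = K * (1 / ‖η‖ * Wg 6 1 1 η) := by
          field_simp

end

theorem pro (_h1 : S_PB) (h2 : S_WI) (h4 : S_WE) : S_PRO := by
  intro f K hc he hb x
  have iA : Integrable (FA f x) ((volume : Measure E).prod volume) :=
    int_quad hc hb h2 h4 Real.cos Real.cos Real.continuous_cos Real.continuous_cos
      Real.abs_cos_le_one Real.abs_cos_le_one x
  have iB : Integrable (FB f x) ((volume : Measure E).prod volume) :=
    int_quad hc hb h2 h4 Real.sin Real.sin Real.continuous_sin Real.continuous_sin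
      Real.abs_sin_le_one Real.abs_sin_le_one x
  have iC1 := int_lin hc hb h2 h4 Real.cos Real.continuous_cos Real.abs_cos_le_one x
  have iD1 := int_lin hc hb h2 h4 Real.sin Real.continuous_sin Real.abs_sin_le_one x
  have iC : Integrable (FC f x) ((volume : Measure E).prod volume) := iC1.mul_prod iC1
  have iD : Integrable (FD f x) ((volume : Measure E).prod volume) := iD1.mul_prod iD1
  have hne : ∀ᵐ z ∂((volume : Measure E).prod (volume : Measure E)), z.2 ≠ 0 := by
    have h : ∀ᵐ η : E, η ≠ 0 := by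
      have := measure_eq_zero_iff_ae_notMem.mp (measure_singleton (μ := (volume : Measure E)) (0 : E))
      exact this
    exact Measure.quasiMeasurePreserving_snd.ae h
  have hps : Psi f x =ᵐ[(volume : Measure E).prod volume]
      fun z => FA f x z - FB f x z + FC f x z - FD f x z := by
    filter_upwards [hne] with z hz
    exact psi_eq f x z hz
  have iS : Integrable (fun z => FA f x z - FB f x z + FC f x z - FD f x z)
      ((volume : Measure E).prod volume) := ((iA.sub iB).add iC).sub iD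
  have iP : Integrable (Psi f x) ((volume : Measure E).prod volume) := iS.congr hps.symm
  have hmp := measurePreserving_sub_prod (volume : Measure E) (volume : Measure E)
  have iT : Integrable (fun z : E × E => Psi f x (z.1 - z.2, z.2))
      ((volume : Measure E).prod volume) := hmp.integrable_comp_of_integrable iP
  -- the left-hand side
  have hL : CT (NN f f) x = ∫ z : E × E, Psi f x z ∂((volume : Measure E).prod volume) := by
    have e1 : CT (NN f f) x = ∫ ξ, ∫ η, Psi f x (ξ - η, η) := by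
      unfold CT NN
      refine integral_congr_ae (Filter.Eventually.of_forall fun ξ => ?_)
      simp only
      rw [← integral_const_mul]
      refine integral_congr_ae (Filter.Eventually.of_forall fun η => ?_)
      simp only [Psi, sub_add_cancel]
      ring
    have e2 : ∫ z : E × E, Psi f x (z.1 - z.2, z.2) ∂((volume : Measure E).prod volume) =
        ∫ ξ, ∫ η, Psi f x (ξ - η, η) := integral_prod _ iT
    have e3 : ∫ z : E × E, Psi f x (z.1 - z.2, z.2) ∂((volume : Measure E).prod volume) =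
        ∫ z : E × E, Psi f x z ∂((volume : Measure E).prod volume) := by
      have e4 := integral_map (μ := (volume : Measure E).prod volume)
        (φ := fun z : E × E => (z.1 - z.2, z.2)) hmp.measurable.aemeasurable
        (f := Psi f x) (by rw [hmp.map_eq]; exact iP.aestronglyMeasurable)
      rw [hmp.map_eq] at e4
      exact e4.symm
    rw [e1, ← e2, e3]
  have hI : ∫ z : E × E, Psi f x z ∂((volume : Measure E).prod volume) =
      (∫ z, FA f x z ∂((volume : Measure E).prod volume)) -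
      (∫ z, FB f x z ∂((volume : Measure E).prod volume)) +
      (∫ z, FC f x z ∂((volume : Measure E).prod volume)) -
      (∫ z, FD f x z ∂((volume : Measure E).prod volume)) := by
    have i1 : Integrable (fun z => FA f x z - FB f x z) ((volume : Measure E).prod volume) :=
      iA.sub iB
    have i2 : Integrable (fun z => FA f x z - FB f x z + FC f x z)
      ((volume : Measure E).prod volume) := i1.add iC
    rw [integral_congr_ae hps, integral_sub i2 iD, integral_add i1 iC, integral_sub iA iB]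
  have hA : ∫ z, FA f x z ∂((volume : Measure E).prod volume) = 0 := by
    rw [integral_prod_symm _ iA]
    have h : ∀ η : E, ∫ ζ, FA f x (ζ, η) = 0 := by
      intro η
      apply odd_int
      intro ζ
      simp only [FA, inner_neg_left, Real.cos_neg, he]
      ring
    simp [h]
  have hD : ∫ z, FD f x z ∂((volume : Measure E).prod volume) = 0 := by
    have h : ∫ ζ : E, Real.sin (inner ℝ ζ x) * f ζ = 0 := by
      apply odd_int
      intro ζ
      simp only [inner_neg_left, Real.sin_neg, he]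
      ring
    have h' : ∫ z, FD f x z ∂((volume : Measure E).prod volume) =
        (∫ ζ : E, Real.sin (inner ℝ ζ x) * f ζ) * ∫ ζ : E, Real.sin (inner ℝ ζ x) * f ζ :=
      integral_prod_mul (fun ζ : E => Real.sin (inner ℝ ζ x) * f ζ)
        (fun ζ : E => Real.sin (inner ℝ ζ x) * f ζ)
    rw [h', h, zero_mul]
  have hC : ∫ z, FC f x z ∂((volume : Measure E).prod volume) = CT f x ^ 2 := by
    have h' : ∫ z, FC f x z ∂((volume : Measure E).prod volume) =
        (∫ ζ : E, Real.cos (inner ℝ ζ x) * f ζ) * ∫ ζ : E, Real.cos (inner ℝ ζ x) * f ζ :=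
      integral_prod_mul (fun ζ : E => Real.cos (inner ℝ ζ x) * f ζ)
        (fun ζ : E => Real.cos (inner ℝ ζ x) * f ζ)
    rw [h', sq]
    rfl
  have hB : ∫ z, FB f x z ∂((volume : Measure E).prod volume) =
      - ∫ ξ, inner ℝ ξ (VV f x) * Real.sin (inner ℝ ξ x) * f ξ := by
    rw [integral_prod _ iB, ← integral_neg]
    refine integral_congr_ae (Filter.Eventually.of_forall fun ζ => ?_)
    simp only
    have h1 : (inner ℝ ζ (VV f x) : ℝ) =
        ∫ η, inner ℝ ζ ((-(Real.sin (inner ℝ η x) * f η / ‖η‖ ^ 2)) • η) := by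
      unfold VV
      exact (integral_inner (int_vec hc hb h2 h4 x) ζ).symm
    rw [h1, mul_assoc, ← integral_mul_const, ← integral_neg]
    refine integral_congr_ae (Filter.Eventually.of_forall fun η => ?_)
    simp only [FB, inner_smul_right]
    ring
  rw [hL, hI, hA, hB, hC, hD]
  ring

end Pool.Agent.W369.KG.Pro
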